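import Mathlib
import Pool.Agent.Q277.TriangleSums

/-!
# The sum `∑_{k<n} (3k+2) ∑_j C(k,j)^4` is divisible by `2n`
-/

open Finset

namespace Pool.Agent.Results.MP_7c66d8_nt.FourthPowers

/-- `f_n^{(4)} = ∑_{k=0}^n C(n,k)^4`. -/
def f4 (n : ℕ) : ℕ := ∑ k ∈ range (n + 1), n.choose k ^ 4

/-- `S(n) = ∑_{k=0}^{n-1} (3k+2) f_k^{(4)}`. -/
def S (n : ℕ) : ℕ := ∑ k ∈ range n, (3 * k + 2) * f4 k

theorem S_eq (n : ℕ) : (S n : ℤ) = Q277.TriangleSums.S 4 n := by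
  unfold S Q277.TriangleSums.S f4
  push_cast
  refine Finset.sum_congr rfl fun k _ => ?_
  have : (-1 : ℤ) ^ (4 * k) = 1 := by rw [pow_mul]; norm_num
  rw [this, one_mul]

/-- For every `n ≥ 1`, `2n` divides `S(n) = ∑_{k=0}^{n-1} (3k+2) ∑_j C(k,j)^4`. -/
theorem result : ∀ n : ℕ, 1 ≤ n → 2 * n ∣ S n := by
  intro n _
  have h := Q277.TriangleSums.two_mul_dvd_S 4 n (by norm_num)
  rw [← S_eq] at h
  exact_mod_cast h

end Pool.Agent.Results.MP_7c66d8_nt.FourthPowers
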